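import Pool.Agent.W475.BG.Stm

set_option autoImplicit false

/-! Task EXP of project BG: the expansion of the backward heat flow of an L-function. -/

namespace Pool.Agent.W45.BG

open Complex MeasureTheory Filter Topology Pool.Agent.W475.BG

/-- Horizontal contour shift. -/
theorem shift (g : ℂ → ℂ) (y1 y2 C : ℝ)
    (hd : ∀ w : ℂ, w.im ∈ Set.uIcc y1 y2 → DifferentiableAt ℂ g w)
    (hb : ∀ w : ℂ, w.im ∈ Set.uIcc y1 y2 → ‖g w‖ ≤ C * Real.exp (-w.re ^ 2)) :
    ∫ v : ℝ, g (v + y1 * I) = ∫ v : ℝ, g (v + y2 * I) := by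
  have hg : Integrable (fun v : ℝ => C * Real.exp (-v ^ 2)) := by
    have := integrable_exp_neg_mul_sq (b := 1) one_pos
    simp only [neg_mul, one_mul] at this
    exact this.const_mul C
  have hint : ∀ y ∈ Set.uIcc y1 y2, Integrable (fun v : ℝ => g (v + y * I)) := by
    intro y hy
    refine Integrable.mono' hg (Continuous.aestronglyMeasurable ?_)
      (Eventually.of_forall fun v => ?_)
    · rw [continuous_iff_continuousAt]
      intro v
      have h1 : ContinuousAt g ((v : ℂ) + y * I) := (hd _ (by simpa using hy)).continuousAt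
      exact ContinuousAt.comp (f := fun v : ℝ => (v : ℂ) + y * I) h1 (by fun_prop)
    · have := hb ((v : ℂ) + y * I) (by simpa using hy)
      simpa using this
  have h1 := intervalIntegral_tendsto_integral (hint y1 Set.left_mem_uIcc)
    tendsto_neg_atTop_atBot tendsto_id
  have h2 := intervalIntegral_tendsto_integral (hint y2 Set.right_mem_uIcc)
    tendsto_neg_atTop_atBot tendsto_id
  have h3 : Tendsto (fun R : ℝ => (∫ x in (-R)..R, g (x + y1 * I)) -
      ∫ x in (-R)..R, g (x + y2 * I)) atTop (𝓝 0) := by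
    have hlim : Tendsto (fun R : ℝ => 2 * (C * Real.exp (-R ^ 2) * |y2 - y1|)) atTop (𝓝 0) := by
      have e1 : Tendsto (fun R : ℝ => Real.exp (-R ^ 2)) atTop (𝓝 0) :=
        Real.tendsto_exp_neg_atTop_nhds_zero.comp (tendsto_pow_atTop two_ne_zero)
      have := ((e1.const_mul C).mul_const |y2 - y1|).const_mul 2
      simpa using this
    refine squeeze_zero_norm (fun R => ?_) hlim
    have H := Complex.integral_boundary_rect_eq_zero_of_differentiableOn g
      (⟨-R, y1⟩ : ℂ) (⟨R, y2⟩ : ℂ) (fun w hw => (hd w hw.2).differentiableWithinAt)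
    simp only at H
    have e2 : (∫ x in (-R)..R, g (x + y1 * I)) - ∫ x in (-R)..R, g (x + y2 * I) =
        I • (∫ y in y1..y2, g (((-R : ℝ) : ℂ) + y * I)) -
        I • (∫ y in y1..y2, g ((R : ℂ) + y * I)) := by
      linear_combination (exp := 1) H
    rw [e2]
    have e3 : ∀ r : ℝ, r ^ 2 = R ^ 2 → ‖I • (∫ y in y1..y2, g ((r : ℂ) + y * I))‖ ≤
        C * Real.exp (-R ^ 2) * |y2 - y1| := by
      intro r hr
      rw [norm_smul, norm_I, one_mul]
      refine intervalIntegral.norm_integral_le_of_norm_le_const fun y hy => ?_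
      have := hb ((r : ℂ) + y * I) (by simpa using Set.uIoc_subset_uIcc hy)
      simpa [hr] using this
    refine (norm_sub_le _ _).trans ?_
    have := e3 (-R) (by ring)
    have := e3 R rfl
    linarith
  have := tendsto_nhds_unique (h1.sub h2) h3
  exact sub_eq_zero.1 this

theorem diffHH (D : Dat) (hD : Ok D) (z : ℂ) (hz : 0 ≤ z.re) : DifferentiableAt ℂ (HH D) z := by
  unfold HH
  refine DifferentiableAt.mul ?_ ?_
  · exact DifferentiableAt.const_cpow (by fun_prop) (Or.inl (by exact_mod_cast hD.hQ.ne'))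
  · refine DifferentiableAt.fun_finsetProd (fun j _ => ?_)
    have hre : 0 < (1 / 2 + z + D.mu j).re := by
      have := hD.hmu j
      have h2 : (1 / 2 + z + D.mu j).re = 1 / 2 + z.re + D.mu j := by
        simp
      rw [h2]; linarith
    have h1 : DifferentiableAt ℂ Gammaℝ (1 / 2 + z + D.mu j) := by
      have h3 := ((differentiable_Gammaℝ_inv (1 / 2 + z + D.mu j)).inv
        (inv_ne_zero (Gammaℝ_ne_zero_of_re_pos hre)))
      have h4 : (fun s : ℂ => (Gammaℝ s)⁻¹)⁻¹ = Gammaℝ := by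
        funext s; simp
      rw [h4] at h3
      exact h3
    exact DifferentiableAt.comp (f := fun z : ℂ => 1 / 2 + z + D.mu j) z h1 (by fun_prop)

theorem norm_kern (w : ℂ) : ‖cexp (-w ^ 2)‖ = Real.exp (-w.re ^ 2) * Real.exp (w.im ^ 2) := by
  rw [Complex.norm_exp, ← Real.exp_add]
  congr 1
  simp [sq]
  ring

/-- The shift with the Gaussian kernel: `re` moves from `re z` to `re z + A`. -/
theorem shiftG (F : ℂ → ℂ) (z : ℂ) (c A M : ℝ) (hc : 0 < c) (A' : ℝ)
    (hd : ∀ w : ℂ, w.re ∈ Set.uIcc (z.re + A) (z.re + A') → DifferentiableAt ℂ F w)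
    (hb : ∀ w : ℂ, w.re ∈ Set.uIcc (z.re + A) (z.re + A') → ‖F w‖ ≤ M) :
    ∫ v : ℝ, cexp (-((v : ℂ) - A / c * I) ^ 2) * F (z + A + I * ((c * v : ℝ) : ℂ)) =
    ∫ v : ℝ, cexp (-((v : ℂ) - A' / c * I) ^ 2) * F (z + A' + I * ((c * v : ℝ) : ℂ)) := by
  have hM : 0 ≤ M := by
    refine (norm_nonneg _).trans (hb (z + A) ?_)
    simp
  have hmem : ∀ w : ℂ, w.im ∈ Set.uIcc (-(A / c)) (-(A' / c)) →
      (z + I * (c * w)).re ∈ Set.uIcc (z.re + A) (z.re + A') := by
    intro w hw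
    have e1 : (z + I * (c * w)).re = z.re - c * w.im := by
      simp [sub_eq_add_neg]
    have key : ∀ y t : ℝ, (t ≤ -(y / c) → c * t ≤ -y) ∧ (-(y / c) ≤ t → -y ≤ c * t) := by
      intro y t
      have e : c * -(y / c) = -y := by field_simp
      refine ⟨fun h => ?_, fun h => ?_⟩
      · rw [← e]; exact mul_le_mul_of_nonneg_left h hc.le
      · rw [← e]; exact mul_le_mul_of_nonneg_left h hc.le
    rw [e1]
    rw [Set.mem_uIcc] at hw ⊢
    rcases hw with ⟨h1, h2⟩ | ⟨h1, h2⟩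
    · right
      have h3 := (key A' _).1 h2
      have h4 := (key A _).2 h1
      constructor <;> linarith
    · left
      have h3 := (key A _).1 h2
      have h4 := (key A' _).2 h1
      constructor <;> linarith
  have hsq : ∀ t ∈ Set.uIcc (-(A / c)) (-(A' / c)), t ^ 2 ≤ (A / c) ^ 2 + (A' / c) ^ 2 := by
    intro t ht
    have ha := sq_nonneg (A / c)
    have ha' := sq_nonneg (A' / c)
    have h5 : |t| ≤ max |A / c| |A' / c| := by
      rw [Set.mem_uIcc] at ht
      rw [abs_le]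
      have q1 := le_abs_self (A / c)
      have q2 := neg_abs_le (A / c)
      have q3 := le_abs_self (A' / c)
      have q4 := neg_abs_le (A' / c)
      have q5 := le_max_left |A / c| |A' / c|
      have q6 := le_max_right |A / c| |A' / c|
      rcases ht with ⟨h1, h2⟩ | ⟨h1, h2⟩ <;> constructor <;> linarith
    rw [← sq_abs]
    rcases max_cases |A / c| |A' / c| with h | h
    · rw [h.1] at h5
      have := pow_le_pow_left₀ (abs_nonneg t) h5 2
      rw [sq_abs (A / c)] at this; linarith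
    · rw [h.1] at h5
      have := pow_le_pow_left₀ (abs_nonneg t) h5 2
      rw [sq_abs (A' / c)] at this; linarith
  have H := shift (fun w => cexp (-w ^ 2) * F (z + I * (c * w))) (-(A / c)) (-(A' / c))
    (M * Real.exp ((A / c) ^ 2 + (A' / c) ^ 2)) (fun w hw => by
      have h1 : DifferentiableAt ℂ F (z + I * (c * w)) := hd _ (hmem w hw)
      have h2 : DifferentiableAt ℂ (fun w : ℂ => F (z + I * (c * w))) w :=
        DifferentiableAt.comp (f := fun w : ℂ => z + I * (c * w)) w h1 (by fun_prop)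
      exact DifferentiableAt.mul (by fun_prop) h2) (fun w hw => by
      rw [norm_mul, norm_kern]
      have h1 := hb _ (hmem w hw)
      have h2 := Real.exp_le_exp.2 (hsq _ hw)
      calc Real.exp (-w.re ^ 2) * Real.exp (w.im ^ 2) * ‖F (z + I * (c * w))‖
          ≤ Real.exp (-w.re ^ 2) * Real.exp ((A / c) ^ 2 + (A' / c) ^ 2) * M := by gcongr
        _ = _ := by ring)
  have ept : ∀ (B : ℝ) (v : ℝ), cexp (-((v : ℂ) - B / c * I) ^ 2) *
      F (z + B + I * ((c * v : ℝ) : ℂ)) =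
      (fun w => cexp (-w ^ 2) * F (z + I * (c * w))) ((v : ℂ) + ((-(B / c) : ℝ) : ℂ) * I) := by
    intro B v
    have hc0 : (c : ℂ) ≠ 0 := by exact_mod_cast hc.ne'
    simp only
    have e1 : (v : ℂ) + ((-(B / c) : ℝ) : ℂ) * I = v - B / c * I := by push_cast; ring
    rw [e1]
    congr 2
    have e2 : (c : ℂ) * (v - B / c * I) = c * v - B * I := by field_simp
    rw [e2]
    push_cast
    linear_combination (B : ℂ) * I_sq
  simp only [ept]
  exact H

theorem npow (n : ℕ) (w : ℂ) : ((n : ℂ) + 1) ^ w =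
    cexp ((Real.log ((n : ℝ) + 1) : ℂ) * w) := by
  have hN0 : (0 : ℝ) < (n : ℝ) + 1 := by positivity
  have h1 : ((n : ℂ) + 1) = (((n : ℝ) + 1 : ℝ) : ℂ) := by push_cast; rfl
  rw [h1, Complex.cpow_def_of_ne_zero (by exact_mod_cast hN0.ne'), ← Complex.ofReal_log hN0.le]

theorem norm_npow (n : ℕ) (w : ℂ) : ‖((n : ℂ) + 1) ^ w‖ = ((n : ℝ) + 1) ^ w.re := by
  have hN0 : (0 : ℝ) < (n : ℝ) + 1 := by positivity
  have h1 : ((n : ℂ) + 1) = (((n : ℝ) + 1 : ℝ) : ℂ) := by push_cast; rfl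
  rw [h1, Complex.norm_cpow_eq_rpow_re_of_pos hN0]

theorem term_bd (D : Dat) (A : ℝ) (hA : ∀ n : ℕ, 1 ≤ n → ‖D.a n‖ ≤ (n : ℝ) ^ A) (n : ℕ) (w : ℂ)
    (hw : A + 3 / 2 ≤ w.re) :
    ‖D.a (n + 1) * ((n : ℂ) + 1) ^ (-(1 / 2) - w)‖ ≤ 1 / ((n : ℝ) + 1) ^ 2 := by
  have hN0 : (0 : ℝ) < (n : ℝ) + 1 := by positivity
  have hN1 : (1 : ℝ) ≤ (n : ℝ) + 1 := by
    have : (0 : ℝ) ≤ n := Nat.cast_nonneg n
    linarith
  rw [norm_mul, norm_npow]
  have h1 := hA (n + 1) (by omega)
  push_cast at h1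
  have e1 : (-(1 / 2) - w).re = -(1 / 2) - w.re := by simp
  rw [e1]
  calc ‖D.a (n + 1)‖ * ((n : ℝ) + 1) ^ (-(1 / 2) - w.re)
      ≤ ((n : ℝ) + 1) ^ A * ((n : ℝ) + 1) ^ (-(1 / 2) - w.re) := by gcongr
    _ = ((n : ℝ) + 1) ^ (A + (-(1 / 2) - w.re)) := (Real.rpow_add hN0 _ _).symm
    _ ≤ ((n : ℝ) + 1) ^ (-2 : ℝ) := Real.rpow_le_rpow_of_exponent_le hN1 (by linarith)
    _ = 1 / ((n : ℝ) + 1) ^ 2 := by
        rw [Real.rpow_neg hN0.le]; norm_num

theorem ser' (D : Dat) (A σ : ℝ) (hA : ∀ n : ℕ, 1 ≤ n → ‖D.a n‖ ≤ (n : ℝ) ^ A)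
    (hs : ∀ s : ℂ, σ ≤ s.re →
      D.Lam s = (D.Q : ℂ) ^ s * (∏ j, Gammaℝ (s + D.mu j)) * LSeries D.a s)
    (w : ℂ) (hw : A + 3 / 2 ≤ w.re) (hσ : σ ≤ 1 / 2 + w.re) :
    D.Lam (1 / 2 + w) = HH D w * ∑' n : ℕ, D.a (n + 1) * ((n : ℂ) + 1) ^ (-(1 / 2) - w) := by
  have e1 : (1 / 2 + w).re = 1 / 2 + w.re := by simp
  rw [hs (1 / 2 + w) (by rw [e1]; exact hσ)]
  have hsum : LSeriesSummable D.a (1 / 2 + w) := by
    refine LSeriesSummable_of_le_const_mul_rpow (x := A + 1) (by rw [e1]; linarith) ⟨1, ?_⟩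
    intro n hn
    have := hA n (Nat.one_le_iff_ne_zero.2 hn)
    simpa using this
  have h2 : LSeries D.a (1 / 2 + w) = ∑' n : ℕ, D.a (n + 1) * ((n : ℂ) + 1) ^ (-(1 / 2) - w) := by
    unfold LSeries
    rw [hsum.tsum_eq_zero_add, LSeries.term_zero, zero_add]
    refine tsum_congr fun n => ?_
    rw [LSeries.term_of_ne_zero (by omega), div_eq_mul_inv, ← cpow_neg]
    push_cast
    congr 2
    ring
  rw [h2]
  unfold HH
  rfl

theorem exp_ (D : Dat) (hD : Ok D) (hG : S_GGC D) : S_EXP D := by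
  intro κ hκ z hz
  obtain ⟨A, hA0, hA⟩ := hD.gr
  obtain ⟨σ, hσ⟩ := hD.ser
  obtain ⟨K, hK, -, hH⟩ := hG
  set B : ℝ := |σ| + A + 2 with hB
  have hB0 : 0 ≤ B := by positivity
  set c : ℝ := 2 * Real.sqrt κ with hc
  have hc0 : 0 < c := by have := Real.sqrt_pos.2 hκ; positivity
  have hcc : c ^ 2 = 4 * κ := by
    rw [hc, mul_pow, Real.sq_sqrt hκ.le]; ring
  -- bound of `HH` on strips
  have hHb : ∀ R : ℝ, 0 ≤ R → ∀ w : ℂ, 0 ≤ w.re → w.re ≤ R →
      ‖HH D w‖ ≤ Real.exp (K * (1 + R) * Real.log (2 + R)) := by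
    intro R hR w h0 h1
    refine (hH w h0).trans (Real.exp_le_exp.2 ?_)
    have h2 : Real.log (2 + w.re) ≤ Real.log (2 + R) :=
      Real.log_le_log (by linarith) (by linarith)
    have h3 : 0 ≤ Real.log (2 + w.re) := Real.log_nonneg (by linarith)
    gcongr
  -- the terms
  set F : ℕ → ℂ → ℂ := fun n w => HH D w * (D.a (n + 1) * ((n : ℂ) + 1) ^ (-(1 / 2) - w)) with hF
  have hFd : ∀ (n : ℕ) (w : ℂ), 0 ≤ w.re → DifferentiableAt ℂ (F n) w := by
    intro n w hw
    have hN : ((n : ℂ) + 1) ≠ 0 := by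
      have : ((n + 1 : ℕ) : ℂ) ≠ 0 := by exact_mod_cast Nat.succ_ne_zero n
      simpa using this
    refine (diffHH D hD w hw).mul (DifferentiableAt.const_mul ?_ _)
    exact DifferentiableAt.const_cpow (by fun_prop) (Or.inl hN)
  have hFb : ∀ (n : ℕ) (R : ℝ), 0 ≤ R → ∀ w : ℂ, 0 ≤ w.re → w.re ≤ R →
      ‖F n w‖ ≤ Real.exp (K * (1 + R) * Real.log (2 + R)) * ‖D.a (n + 1)‖ := by
    intro n R hR w h0 h1
    have hN1 : (1 : ℝ) ≤ (n : ℝ) + 1 := by
      have : (0 : ℝ) ≤ n := Nat.cast_nonneg n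
      linarith
    simp only [hF, norm_mul, norm_npow]
    have e1 : (-(1 / 2) - w).re = -(1 / 2) - w.re := by simp
    rw [e1]
    have h2 : ((n : ℝ) + 1) ^ (-(1 / 2) - w.re) ≤ 1 :=
      Real.rpow_le_one_of_one_le_of_nonpos hN1 (by linarith)
    calc ‖HH D w‖ * (‖D.a (n + 1)‖ * ((n : ℝ) + 1) ^ (-(1 / 2) - w.re))
        ≤ Real.exp (K * (1 + R) * Real.log (2 + R)) * (‖D.a (n + 1)‖ * 1) := by
          gcongr
          exact hHb R hR w h0 h1
      _ = _ := by ring
  -- the terms as integrals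
  set G : ℕ → ℝ → ℂ := fun n v => cexp (-((v : ℂ) - B / c * I) ^ 2) *
    F n (z + B + I * ((c * v : ℝ) : ℂ)) with hGdef
  have hint : ∀ n, ((1 / Real.sqrt Real.pi : ℝ) : ℂ) * (∫ v, G n v) = XT D κ z n := by
    intro n
    set L := Real.log ((n : ℝ) + 1) with hL
    have hN1 : (1 : ℝ) ≤ (n : ℝ) + 1 := by
      have : (0 : ℝ) ≤ n := Nat.cast_nonneg n
      linarith
    have hL0 : 0 ≤ L := Real.log_nonneg hN1
    have hκL : 0 ≤ 2 * κ * L := by positivity
    have hsub : ∀ w : ℂ, w.re ∈ Set.uIcc (z.re + B) (z.re + 2 * κ * L) →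
        0 ≤ w.re ∧ w.re ≤ z.re + B + 2 * κ * L := by
      intro w hw
      rw [Set.mem_uIcc] at hw
      rcases hw with ⟨h1, h2⟩ | ⟨h1, h2⟩ <;> constructor <;> linarith
    have H := shiftG (F n) z c B (Real.exp (K * (1 + (z.re + B + 2 * κ * L)) *
      Real.log (2 + (z.re + B + 2 * κ * L))) * ‖D.a (n + 1)‖) hc0 (2 * κ * L)
      (fun w hw => hFd n w (hsub w hw).1)
      (fun w hw => hFb n _ (by positivity) w (hsub w hw).1 (hsub w hw).2)
    simp only [hGdef]
    rw [H]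
    unfold XT GG
    rw [← hL]
    set W : ℂ := D.a (n + 1) * ((n : ℂ) + 1) ^ (-(1 / 2) - z) *
      ((Real.exp (-(κ * L ^ 2)) : ℝ) : ℂ) with hW
    have hL2 : (c : ℂ) ^ 2 = 4 * (κ : ℂ) := by exact_mod_cast hcc
    have hc0' : (c : ℂ) ≠ 0 := by exact_mod_cast hc0.ne'
    have hpt : ∀ v : ℝ, cexp (-((v : ℂ) - ((2 * κ * L : ℝ) : ℂ) / c * I) ^ 2) *
        F n (z + ((2 * κ * L : ℝ) : ℂ) + I * ((c * v : ℝ) : ℂ)) =
        W * (((Real.exp (-v ^ 2) : ℝ) : ℂ) *
          HH D (z + ((2 * κ * L : ℝ) : ℂ) + I * ((c * v : ℝ) : ℂ))) := by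
      intro v
      simp only [hF, hW]
      rw [npow, npow, ← hL]
      have e1 : ((2 * κ * L : ℝ) : ℂ) / c = c * L / 2 := by
        rw [div_eq_iff hc0']
        push_cast
        linear_combination (-(L : ℂ) / 2) * hL2
      have hexp : ∀ a b d e f : ℂ, a + b = d + e + f → cexp a * cexp b =
          cexp d * cexp e * cexp f := by
        intro a b d e f h
        rw [← Complex.exp_add, ← Complex.exp_add, ← Complex.exp_add, h]
      have e2 := hexp (-((v : ℂ) - c * L / 2 * I) ^ 2)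
        ((L : ℂ) * (-(1 / 2) - (z + ((2 * κ * L : ℝ) : ℂ) + I * ((c * v : ℝ) : ℂ))))
        ((L : ℂ) * (-(1 / 2) - z)) (-((κ : ℂ) * (L : ℂ) ^ 2)) (-(v : ℂ) ^ 2) (by
          push_cast
          linear_combination (-(c : ℂ) ^ 2 * L ^ 2 / 4) * I_sq + ((L : ℂ) ^ 2 / 4) * hL2)
      rw [e1]
      push_cast at e2 ⊢
      linear_combination (HH D (z + 2 * κ * L + I * (c * v)) * D.a (n + 1)) * e2
    simp only [hpt]
    rw [integral_const_mul, ← hc]
    ring
  -- bounds and integrability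
  set M : ℝ := Real.exp (K * (1 + (z.re + B)) * Real.log (2 + (z.re + B))) *
    Real.exp ((B / c) ^ 2) with hM
  have hwre : ∀ v : ℝ, (z + B + I * ((c * v : ℝ) : ℂ)).re = z.re + B := by
    intro v; simp
  have hGb : ∀ (n : ℕ) (v : ℝ), ‖G n v‖ ≤ M * (1 / ((n : ℝ) + 1) ^ 2) * Real.exp (-v ^ 2) := by
    intro n v
    simp only [hGdef, hF]
    rw [norm_mul, norm_kern, norm_mul]
    have h1 := hHb (z.re + B) (by linarith) (z + B + I * ((c * v : ℝ) : ℂ))
      (by rw [hwre]; linarith) (by rw [hwre])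
    have h2 := term_bd D A hA n (z + B + I * ((c * v : ℝ) : ℂ)) (by
      rw [hwre]
      have := abs_nonneg σ
      linarith)
    have e1 : ((v : ℂ) - B / c * I).re = v := by
      have : ((v : ℂ) - B / c * I) = v - ((B / c : ℝ) : ℂ) * I := by push_cast; ring
      rw [this]; simp
    have e2 : ((v : ℂ) - B / c * I).im = -(B / c) := by
      have : ((v : ℂ) - B / c * I) = v - ((B / c : ℝ) : ℂ) * I := by push_cast; ring
      rw [this]; simp
    rw [e1, e2, neg_sq]
    calc Real.exp (-v ^ 2) * Real.exp ((B / c) ^ 2) *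
          (‖HH D (z + B + I * ((c * v : ℝ) : ℂ))‖ *
          ‖D.a (n + 1) * ((n : ℂ) + 1) ^ (-(1 / 2) - (z + B + I * ((c * v : ℝ) : ℂ)))‖)
        ≤ Real.exp (-v ^ 2) * Real.exp ((B / c) ^ 2) *
          (Real.exp (K * (1 + (z.re + B)) * Real.log (2 + (z.re + B))) *
            (1 / ((n : ℝ) + 1) ^ 2)) := by gcongr
      _ = _ := by rw [hM]; ring
  have hg : Integrable (fun v : ℝ => Real.exp (-v ^ 2)) := by
    have := integrable_exp_neg_mul_sq (b := 1) one_pos
    simp only [neg_mul, one_mul] at this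
    exact this
  have hGi : ∀ n, Integrable (G n) := by
    intro n
    refine Integrable.mono' (hg.const_mul (M * (1 / ((n : ℝ) + 1) ^ 2)))
      (Continuous.aestronglyMeasurable ?_) (Eventually.of_forall fun v => hGb n v)
    rw [continuous_iff_continuousAt]
    intro v
    have h1 : ContinuousAt (F n) (z + B + I * ((c * v : ℝ) : ℂ)) :=
      (hFd n _ (by rw [hwre]; linarith)).continuousAt
    have h2 : ContinuousAt (fun v : ℝ => F n (z + B + I * ((c * v : ℝ) : ℂ))) v :=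
      ContinuousAt.comp (f := fun v : ℝ => z + B + I * ((c * v : ℝ) : ℂ)) h1 (by fun_prop)
    exact ContinuousAt.mul (by fun_prop) h2
  have hs2 : Summable (fun n : ℕ => 1 / ((n : ℝ) + 1) ^ 2) := by
    have := (summable_nat_add_iff 1).2 (Real.summable_one_div_nat_pow.2 (one_lt_two))
    simpa using this
  have hsum : Summable (fun n : ℕ => ∫ v, ‖G n v‖) := by
    refine Summable.of_nonneg_of_le (fun n => integral_nonneg fun v => norm_nonneg _) (fun n => ?_)
      (hs2.mul_left (M * ∫ v : ℝ, Real.exp (-v ^ 2)))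
    calc ∫ v, ‖G n v‖ ≤ ∫ v : ℝ, M * (1 / ((n : ℝ) + 1) ^ 2) * Real.exp (-v ^ 2) :=
          integral_mono (hGi n).norm (hg.const_mul _) (hGb n)
      _ = _ := by rw [integral_const_mul]; ring
  have H := hasSum_integral_of_summable_integral_norm hGi hsum
  refine ⟨?_, ?_⟩
  · refine Summable.of_nonneg_of_le (fun n => norm_nonneg _) (fun n => ?_)
      (hsum.mul_left ‖((1 / Real.sqrt Real.pi : ℝ) : ℂ)‖)
    rw [← hint n, norm_mul]
    gcongr
    exact norm_integral_le_integral_norm _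
  · obtain ⟨C, hC⟩ := hD.strip (1 / 2 + z.re + B)
    have H0 := shiftG (fun w => D.Lam (1 / 2 + w)) z c 0 C hc0 B
      (fun w hw => DifferentiableAt.comp (f := fun w : ℂ => 1 / 2 + w) w (hD.diff _) (by fun_prop))
      (fun w hw => hC _ (by
        rw [Set.mem_uIcc] at hw
        have e1 : (1 / 2 + w).re = 1 / 2 + w.re := by simp
        rw [e1, abs_le]
        rcases hw with ⟨h1, h2⟩ | ⟨h1, h2⟩ <;> constructor <;> linarith))
    have hG' : ∀ v : ℝ, cexp (-((v : ℂ) - B / c * I) ^ 2) *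
        D.Lam (1 / 2 + (z + B + I * ((c * v : ℝ) : ℂ))) = ∑' n, G n v := by
      intro v
      rw [ser' D A σ hA hσ (z + B + I * ((c * v : ℝ) : ℂ)) (by
        rw [hwre]
        have := abs_nonneg σ
        linarith) (by
        rw [hwre]
        have := le_abs_self σ
        linarith)]
      simp only [hGdef, hF]
      rw [tsum_mul_left, tsum_mul_left]
    unfold XK
    rw [← tsum_congr hint, tsum_mul_left, H.tsum_eq]
    congr 1
    simp only [hG'] at H0
    rw [← H0]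
    refine integral_congr_ae (Eventually.of_forall fun v => ?_)
    simp only
    rw [← hc]
    push_cast
    have e3 : cexp (-((v : ℂ) - 0 / c * I) ^ 2) = cexp (-(v : ℂ) ^ 2) := by
      simp
    rw [e3]
    congr 2
    ring

end Pool.Agent.W45.BG
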